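import Pool.Agent.Helper14.TR.Defs

/-!
Project TR, block TR-5a: compression of the data to a block.
-/

set_option linter.unusedSectionVars false

open Matrix

namespace MH

variable {n : Type*} [Fintype n] [DecidableEq n]

theorem exists_onbE {e : Matrix n n ℂ} (hee : e * e = e) (hes : eᴴ = e) :
    ∃ w : Matrix n (Fin e.rank) ℂ, wᴴ * w = 1 ∧ w * wᴴ = e := by
  classical
  let ev : (n → ℂ) ≃ₗ[ℂ] EuclideanSpace ℂ n := (WithLp.linearEquiv 2 ℂ (n → ℂ)).symm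
  have hin : ∀ x y : n → ℂ, inner ℂ (ev x) (ev y) = star x ⬝ᵥ y := by
    intro x y
    rw [PiLp.inner_apply, dotProduct]
    refine Finset.sum_congr rfl fun i _ => ?_
    rw [mul_comm]
    rfl
  let R : Submodule ℂ (n → ℂ) := LinearMap.range e.mulVecLin
  let R' : Submodule ℂ (EuclideanSpace ℂ n) := R.map ev.toLinearMap
  have hfr : Module.finrank ℂ R' = e.rank := LinearEquiv.finrank_map_eq ev R
  let b := (stdOrthonormalBasis ℂ R').reindex (finCongr hfr)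
  have hmem : ∀ a, ∃ x ∈ R, ev x = ((b a : R') : EuclideanSpace ℂ n) := by
    intro a
    obtain ⟨x, hx, hxe⟩ := Submodule.mem_map.mp (b a).2
    exact ⟨x, hx, hxe⟩
  choose u hu hue using hmem
  have hon := b.orthonormal
  rw [orthonormal_iff_ite] at hon
  let w : Matrix n (Fin e.rank) ℂ := Matrix.of fun i a => u a i
  have hfix : ∀ a, e *ᵥ u a = u a := by
    intro a
    obtain ⟨y, hy⟩ := LinearMap.mem_range.mp (hu a)
    rw [← hy, Matrix.mulVecLin_apply, Matrix.mulVec_mulVec, hee]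
  have h1 : wᴴ * w = 1 := by
    ext a c
    have h2 := hon a c
    rw [Submodule.coe_inner, ← hue, ← hue, hin] at h2
    rw [Matrix.one_apply, ← h2]
    rfl
  have hexp : ∀ v : n → ℂ, e *ᵥ v = v → (w * wᴴ) *ᵥ v = v := by
    intro v hv
    have hv' : ev v ∈ R' := Submodule.mem_map.mpr ⟨v, ⟨v, hv⟩, rfl⟩
    have h3 := b.sum_repr' (⟨ev v, hv'⟩ : R')
    have h4 := congrArg (fun v : R' => (v : EuclideanSpace ℂ n)) h3
    simp only [Submodule.coe_inner, AddSubmonoidClass.coe_finsetSum, Submodule.coe_smul,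
      ← hue, hin, ← map_smul] at h4
    rw [← map_sum] at h4
    have h5 := ev.injective h4
    rw [← Matrix.mulVec_mulVec]
    refine Eq.trans ?_ h5
    ext i
    rw [Matrix.mulVec, dotProduct, Finset.sum_apply]
    refine Finset.sum_congr rfl fun a _ => ?_
    rw [Pi.smul_apply, smul_eq_mul, mul_comm]
    rfl
  have h6 : w * wᴴ * e = e := by
    apply Matrix.toLin'.injective
    refine LinearMap.ext fun v => ?_
    rw [Matrix.toLin'_apply, Matrix.toLin'_apply, ← Matrix.mulVec_mulVec]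
    exact hexp _ (by rw [Matrix.mulVec_mulVec, hee])
  have h7 : e * w = w := by
    ext i a
    exact congrFun (hfix a) i
  refine ⟨w, h1, ?_⟩
  have h8 := congrArg Matrix.conjTranspose h6
  rw [Matrix.conjTranspose_mul, Matrix.conjTranspose_mul, Matrix.conjTranspose_conjTranspose, hes,
    ← Matrix.mul_assoc, h7] at h8
  exact h8

theorem Pre.compress {τ : Matrix n n ℂ →ₗ[ℂ] Matrix n n ℂ} {L : Submodule ℂ (Matrix n n ℂ)}
    {h : Matrix n n ℂ} {E : ℝ → Matrix n n ℂ} {Λ : Finset ℝ} (D : Pre τ L h E Λ) {e : Matrix n n ℂ}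
    (hee : e * e = e) (hes : eᴴ = e) (hte : τ e = e) (hc : ∀ x ∈ L, x * e = e * x) (hE : ∀ μ, E μ * e = e * E μ)
    (hirr : ∀ T, e * T * e = T → (∀ x ∈ L, T * x = x * T) → ∃ c : ℂ, T = c • e)
    {k : Type} [Fintype k] [DecidableEq k] {w : Matrix n k ℂ} (hw : wᴴ * w = 1) (hww : w * wᴴ = e) :
    Dat (cpt w τ) (cpL w wᴴ L) (wᴴ * h * w) (fun μ => wᴴ * E μ * w) Λ := by
  have ew : e * w = w := by rw [← hww, Matrix.mul_assoc, hw, Matrix.mul_one]
  have we : wᴴ * e = wᴴ := by rw [← hww, ← Matrix.mul_assoc, hw, Matrix.one_mul]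
  have app : ∀ x, cpt w τ x = wᴴ * τ (w * x * wᴴ) * w := fun x => rfl
  have ml : ∀ x : Matrix k k ℂ, e * (w * x * wᴴ) = w * x * wᴴ := by
    intro x
    rw [← Matrix.mul_assoc, ← Matrix.mul_assoc, ew]
  have mr : ∀ x : Matrix k k ℂ, (w * x * wᴴ) * e = w * x * wᴴ := by
    intro x
    rw [Matrix.mul_assoc, we]
  have tl : ∀ x : Matrix k k ℂ, e * τ (w * x * wᴴ) = τ (w * x * wᴴ) := by
    intro x
    have h1 := D.inv.mul (w * x * wᴴ) e
    rw [mr, hte] at h1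
    exact h1.symm
  have tr : ∀ x : Matrix k k ℂ, τ (w * x * wᴴ) * e = τ (w * x * wᴴ) := by
    intro x
    have h1 := D.inv.mul e (w * x * wᴴ)
    rw [ml, hte] at h1
    exact h1.symm
  have comp : ∀ {x y : Matrix n n ℂ}, x * e = e * x → (wᴴ * x * w) * (wᴴ * y * w) = wᴴ * (x * y) * w := by
    intro x y hx
    calc (wᴴ * x * w) * (wᴴ * y * w) = wᴴ * (x * (w * wᴴ)) * y * w := by simp only [Matrix.mul_assoc]
      _ = (wᴴ * e) * x * y * w := by rw [hww, hx]; simp only [Matrix.mul_assoc]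
      _ = wᴴ * (x * y) * w := by rw [we]; simp only [Matrix.mul_assoc]
  refine ⟨⟨?_, ?_, ?_, ?_⟩, ⟨?_, ?_, ?_, ?_, ?_⟩, ?_, ?_, ?_, ?_, ?_⟩
  · intro x y
    rw [app, app, app]
    have e1 : w * (x * y) * wᴴ = (w * x * wᴴ) * (w * y * wᴴ) := by
      calc w * (x * y) * wᴴ = w * x * (wᴴ * w) * y * wᴴ := by
            rw [hw, Matrix.mul_one]; simp only [Matrix.mul_assoc]
        _ = _ := by simp only [Matrix.mul_assoc]
    rw [e1, D.inv.mul]
    calc wᴴ * (τ (w * y * wᴴ) * τ (w * x * wᴴ)) * w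
        = wᴴ * ((τ (w * y * wᴴ) * e) * τ (w * x * wᴴ)) * w := by rw [tr]
      _ = wᴴ * ((τ (w * y * wᴴ) * (w * wᴴ)) * τ (w * x * wᴴ)) * w := by rw [hww]
      _ = _ := by simp only [Matrix.mul_assoc]
  · intro x
    rw [app, app]
    have e1 : w * (wᴴ * τ (w * x * wᴴ) * w) * wᴴ = τ (w * x * wᴴ) := by
      calc w * (wᴴ * τ (w * x * wᴴ) * w) * wᴴ = (w * wᴴ) * τ (w * x * wᴴ) * (w * wᴴ) := by
            simp only [Matrix.mul_assoc]
        _ = _ := by rw [hww, tl, tr]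
    rw [e1, D.inv.inv]
    calc wᴴ * (w * x * wᴴ) * w = (wᴴ * w) * x * (wᴴ * w) := by simp only [Matrix.mul_assoc]
      _ = x := by rw [hw, Matrix.one_mul, Matrix.mul_one]
  · intro x
    rw [app, app]
    have e1 : w * xᴴ * wᴴ = (w * x * wᴴ)ᴴ := by
      rw [Matrix.conjTranspose_mul, Matrix.conjTranspose_mul, Matrix.conjTranspose_conjTranspose,
        Matrix.mul_assoc]
    rw [e1, D.inv.star, Matrix.conjTranspose_mul, Matrix.conjTranspose_mul,
      Matrix.conjTranspose_conjTranspose, Matrix.mul_assoc]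
  · intro x
    rw [app, Matrix.trace_mul_comm, ← Matrix.mul_assoc, hww, tl, D.inv.tr, Matrix.trace_mul_comm,
      ← Matrix.mul_assoc, hw, Matrix.one_mul]
  · intro μ
    rw [Matrix.conjTranspose_mul, Matrix.conjTranspose_mul, Matrix.conjTranspose_conjTranspose,
      D.spec.star, Matrix.mul_assoc]
  · intro μ ν
    rw [comp (hE μ), D.spec.mul]
    split_ifs with h1
    · rfl
    · rw [Matrix.mul_zero, Matrix.zero_mul]
  · intro μ hμ
    rw [D.spec.supp μ hμ, Matrix.mul_zero, Matrix.zero_mul]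
  · rw [← Matrix.sum_mul, ← Matrix.mul_sum, D.spec.sum, Matrix.mul_one, hw]
  · conv_lhs => rw [D.spec.eq]
    rw [Matrix.mul_sum, Matrix.sum_mul]
    refine Finset.sum_congr rfl fun μ _ => ?_
    rw [Matrix.mul_smul, Matrix.smul_mul]
  · rintro _ ⟨x, hx, rfl⟩
    rw [app]
    have e1 : w * (wᴴ * x * w) * wᴴ = e * x * e := by
      calc w * (wᴴ * x * w) * wᴴ = (w * wᴴ) * x * (w * wᴴ) := by simp only [Matrix.mul_assoc]
        _ = _ := by rw [hww]
    rw [e1, D.inv.mul, D.inv.mul, hte, D.sk x hx, ← Matrix.mul_assoc, ← Matrix.mul_assoc, we,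
      Matrix.mul_assoc, ew, Matrix.mul_neg, Matrix.neg_mul]
  · rintro _ ⟨x, hx, rfl⟩ _ ⟨y, hy, rfl⟩
    refine ⟨x * y - y * x, D.br x hx y hy, ?_⟩
    rw [comp (hc x hx), comp (hc y hy), Matrix.mul_sub, Matrix.sub_mul]
  · rintro _ ⟨x, hx, rfl⟩
    refine ⟨xᴴ, D.st x hx, ?_⟩
    rw [Matrix.conjTranspose_mul, Matrix.conjTranspose_mul, Matrix.conjTranspose_conjTranspose,
      Matrix.mul_assoc]
  · intro T hT
    obtain ⟨c, hc1⟩ := hirr (w * T * wᴴ) (by rw [ml, mr]) (by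
      intro x hx
      have h1 := hT (wᴴ * x * w) ⟨x, hx, rfl⟩
      calc w * T * wᴴ * x = w * T * (wᴴ * e) * x := by rw [we]
        _ = w * T * (wᴴ * (e * x)) := by simp only [Matrix.mul_assoc]
        _ = w * T * (wᴴ * (x * (w * wᴴ))) := by rw [← hc x hx, hww]
        _ = w * (T * (wᴴ * x * w)) * wᴴ := by simp only [Matrix.mul_assoc]
        _ = w * ((wᴴ * x * w) * T) * wᴴ := by rw [h1]
        _ = ((w * wᴴ) * x) * w * T * wᴴ := by simp only [Matrix.mul_assoc]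
        _ = x * (e * w) * T * wᴴ := by rw [hww, ← hc x hx]; simp only [Matrix.mul_assoc]
        _ = x * (w * T * wᴴ) := by rw [ew]; simp only [Matrix.mul_assoc])
    refine ⟨c, ?_⟩
    calc T = (wᴴ * w) * T * (wᴴ * w) := by rw [hw, Matrix.one_mul, Matrix.mul_one]
      _ = wᴴ * (w * T * wᴴ) * w := by simp only [Matrix.mul_assoc]
      _ = c • (1 : Matrix k k ℂ) := by
        rw [hc1, Matrix.mul_smul, Matrix.smul_mul, we, hw]
  · exact ⟨h, D.mem, rfl⟩

variable {m : ℤ} {Q : Matrix n n ℚ} {S : Finset ℤ} {P : ℤ → Matrix n n ℂ}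

/-- see `dat_of` (Helper21/MH/HodgeD.lean) -/
theorem pre_of (H : IsHS m Q S P) {B Bi Qi : Matrix n n ℂ} (h1 : B * Bi = 1) (h2 : Bi * B = 1)
    (h3 : toC Q * Qi = 1) (h4 : Qi * toC Q = 1) (hM : toC Q * Cs m S P = Bᴴ * B) :
    Pre (tau B Bi (toC Q) Qi) (LB Q S P B Bi) (cj B Bi (∑ p ∈ S, ((p - m : ℤ) : ℂ) • P p)) (EE m S P B Bi)
      (LamS m S) := by
  refine ⟨dat_inv H h1 h2 h3 h4 hM, dat_spec H h1 h2 hM, ?_, ?_, ?_, ?_⟩
  · intro x hx
    have e1 : (cj Bi B x)ᵀ * toC Q = -(toC Q * cj Bi B x) := eq_neg_of_add_eq_zero_left (mem_LB.1 hx).1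
    rw [tau_apply, mul_assoc, e1, mul_neg, ← mul_assoc, h4, one_mul, cj_neg, cj_cj h1]
  · intro x hx y hy
    rw [mem_LB, cj_sub, ← cj_mul h1, ← cj_mul h1]
    exact LH_br (mem_LB.1 hx) (mem_LB.1 hy)
  · intro x hx
    rw [mem_LB] at hx ⊢
    have hMi2 : (Bi * Biᴴ) * (Bᴴ * B) = 1 := by
      calc (Bi * Biᴴ) * (Bᴴ * B) = Bi * (Biᴴ * Bᴴ) * B := by simp only [mul_assoc]
        _ = 1 := by rw [← Matrix.conjTranspose_mul, h1, Matrix.conjTranspose_one, mul_one, h2]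
    have a2 : (Bi * Biᴴ) * toC Q = Cs m S P := by
      have e1 : (Bi * Biᴴ) * (toC Q * Cs m S P) = 1 := by rw [hM, hMi2]
      calc (Bi * Biᴴ) * toC Q = (Bi * Biᴴ) * toC Q * (Cs m S P * Cs m S P) := by rw [H.Cs_mul, mul_one]
        _ = ((Bi * Biᴴ) * (toC Q * Cs m S P)) * Cs m S P := by simp only [mul_assoc]
        _ = Cs m S P := by rw [e1, one_mul]
    set X := cj Bi B x with hX
    have e1 : cj Bi B xᴴ = (Bi * Biᴴ) * Xᴴ * (Bᴴ * B) := by
      have e2 : x = cj B Bi X := (cj_cj h1 x).symm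
      conv_lhs => rw [e2]
      unfold cj
      rw [Matrix.conjTranspose_mul, Matrix.conjTranspose_mul]
      simp only [mul_assoc]
    have hXc : X.map (starRingEnd ℂ) ∈ LH Q S P := LH_conj hx
    have hXt : Xᴴ = (X.map (starRingEnd ℂ))ᵀ := rfl
    have hW := H.LH_weil hXc
    have e5 := hXc.1
    generalize X.map (starRingEnd ℂ) = Y at hXt hW e5
    have e3 : Yᵀ * toC Q = -(toC Q * Y) := eq_neg_of_add_eq_zero_left e5
    have e4 : cj Bi B xᴴ = -(Cs m S P * Y * Cs m S P) := by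
      rw [e1, ← hM, hXt]
      calc (Bi * Biᴴ) * Yᵀ * (toC Q * Cs m S P) = (Bi * Biᴴ) * (Yᵀ * toC Q) * Cs m S P := by
            simp only [mul_assoc]
        _ = -(((Bi * Biᴴ) * toC Q) * Y * Cs m S P) := by
            rw [e3, mul_neg, neg_mul]
            simp only [mul_assoc]
        _ = _ := by rw [a2]
    rw [e4, H.Cs_eq]
    have e6 : -(((-1 : ℂ) ^ m) • (∑ p ∈ S, ((-1 : ℂ) ^ p) • P p) * Y *
        ((-1 : ℂ) ^ m) • (∑ p ∈ S, ((-1 : ℂ) ^ p) • P p)) =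
        (-((-1 : ℂ) ^ m * (-1) ^ m)) • ((∑ p ∈ S, ((-1 : ℂ) ^ p) • P p) * Y * (∑ p ∈ S, ((-1 : ℂ) ^ p) • P p)) := by
      rw [smul_mul_assoc, smul_mul_assoc, mul_smul_comm, smul_smul, neg_smul]
    rw [e6]
    exact (LH Q S P).smul_mem _ hW
  · rw [mem_LB, cj_cj h2]
    exact H.h0_mem

end MH
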